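import Pool.Agent.H17.GS.Stm
import Pool.Agent.H77.TF.Pri
import Pool.Agent.H64.TF.CFS

set_option autoImplicit false

open MvPolynomial Module Pool.Agent.H77.TF

namespace Pool.Agent.H56.GS

open Pool.Agent.H17.GS

variable {K : Type} [Field K]

/-- The derivation `∑ v_j ∂_j`. -/
noncomputable def dv (v : Fin 3 → MvPolynomial (Fin 3) K) :
    Derivation K (MvPolynomial (Fin 3) K) (MvPolynomial (Fin 3) K) :=
  ∑ j, v j • (pderiv j : Derivation K (MvPolynomial (Fin 3) K) (MvPolynomial (Fin 3) K))

theorem dv_apply (v : Fin 3 → MvPolynomial (Fin 3) K) (f : MvPolynomial (Fin 3) K) :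
    dv v f = ∑ j, v j * pderiv j f := by
  unfold dv
  rw [Fin.sum_univ_three, Fin.sum_univ_three]
  rfl

theorem pderiv_lin (a : Fin 3 → K) (j : Fin 3) : pderiv j (lin a) = C (a j) := by
  classical
  unfold lin
  rw [map_sum]
  have h : ∀ i, pderiv j (C (a i) * X i : MvPolynomial (Fin 3) K) = if i = j then C (a i) else 0 := by
    intro i
    rw [pderiv_C_mul, pderiv_X]
    by_cases hij : i = j
    · subst hij
      simp [smul_eq_C_mul]
    · rw [if_neg hij, Pi.single_eq_of_ne hij]
      simp
  rw [Finset.sum_congr rfl fun i _ => h i, Finset.sum_ite_eq' Finset.univ j fun i => C (a i)]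
  simp

theorem dv_lin (v : Fin 3 → MvPolynomial (Fin 3) K) (a : Fin 3 → K) : dv v (lin a) = evl a v := by
  rw [dv_apply]
  unfold evl
  exact Finset.sum_congr rfl fun j _ => by rw [pderiv_lin, mul_comm]

/-- Leibniz for the product of the forms. -/
theorem dv_prod {ν : Type} (A : ν → Fin 3 → K) (v : Fin 3 → MvPolynomial (Fin 3) K)
    (h : ν → MvPolynomial (Fin 3) K) (hh : ∀ i, evl (A i) v = h i * lin (A i)) (s : Finset ν) :
    dv v (∏ i ∈ s, lin (A i)) = (∑ i ∈ s, h i) * ∏ i ∈ s, lin (A i) := by
  classical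
  induction s using Finset.induction_on with
  | empty => simp
  | insert a s ha ih =>
    rw [Finset.prod_insert ha, Finset.sum_insert ha, Derivation.leibniz, ih, dv_lin, hh,
      smul_eq_mul, smul_eq_mul]
    ring

theorem euler {n : ℕ} (A : Fin n → Fin 3 → K) :
    ∑ j, X j * pderiv j (∏ i, lin (A i)) = C (n : K) * ∏ i, lin (A i) := by
  rw [← dv_apply (fun j => X j)]
  have h := dv_prod A (fun j => X j) (fun _ => 1) (fun i => by rw [one_mul]; rfl) Finset.univ
  rw [h]
  simp

theorem eqv : S_EQV := by
  classical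
  intro K _ _ n A hA hn e
  have hn0 : (n : K) ≠ 0 := by
    have : n ≠ 0 := by omega
    exact_mod_cast this
  have hf0 : ∏ i, lin (A i) ≠ 0 := Finset.prod_ne_zero_iff.2 fun i _ => lin_ne_zero (hA.1 i)
  constructor
  · rintro ⟨v, hv, hvh, hv0⟩
    refine ⟨v, ?_, hvh, ?_⟩
    · intro i
      have hpr := (pri K 3 (A i) (hA.1 i)).1
      have h1 : dv v (∏ i, lin (A i)) = 0 := by
        rw [dv_apply]
        exact hv
      rw [← Finset.mul_prod_erase Finset.univ (fun i => lin (A i)) (Finset.mem_univ i),
        Derivation.leibniz, dv_lin, smul_eq_mul, smul_eq_mul] at h1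
      have h2 : lin (A i) ∣ (∏ k ∈ Finset.univ.erase i, lin (A k)) * evl (A i) v := by
        refine ⟨-dv v (∏ k ∈ Finset.univ.erase i, lin (A k)), ?_⟩
        linear_combination h1
      rcases hpr.dvd_or_dvd h2 with h3 | h3
      · obtain ⟨k, hk, h4⟩ := (Prime.dvd_finsetProd_iff hpr _).1 h3
        obtain ⟨c, hc⟩ := (pri K 3 (A i) (hA.1 i)).2 (A k) h4
        exact absurd hc (hA.2 k i (Finset.ne_of_mem_erase hk) c)
      · exact h3
    · by_contra hcon
      push Not at hcon
      apply hv0
      funext i
      have h1 : v i * (C (n : K) * ∏ i, lin (A i)) = 0 := by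
        rw [← euler A, Finset.mul_sum]
        have h2 : ∀ j, v i * (X j * pderiv j (∏ i, lin (A i))) =
            X i * (v j * pderiv j (∏ i, lin (A i))) := by
          intro j
          linear_combination (-(pderiv j (∏ i, lin (A i)))) * hcon i j
        rw [Finset.sum_congr rfl fun j _ => h2 j, ← Finset.mul_sum]
        have h3 : ∑ j, v j * pderiv j (∏ i, lin (A i)) = 0 := hv
        rw [h3, mul_zero]
      rcases mul_eq_zero.1 h1 with h2 | h2
      · exact h2
      · rcases mul_eq_zero.1 h2 with h3 | h3
        · exact absurd (by simpa using h3) hn0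
        · exact absurd h3 hf0
  · rintro ⟨v, hv, hvh, i₀, j₀, hij⟩
    choose r hr using hv
    let h : Fin n → MvPolynomial (Fin 3) K := fun i =>
      if 1 ≤ e then homogeneousComponent (e - 1) (r i) else 0
    have hlin : ∀ i, (lin (A i)).IsHomogeneous 1 := by
      intro i
      unfold lin
      exact IsHomogeneous.sum _ _ _ fun i _ => isHomogeneous_C_mul_X _ _
    have hh : ∀ i, evl (A i) v = h i * lin (A i) := by
      intro i
      have h1 : (evl (A i) v).IsHomogeneous e := by
        unfold evl
        refine IsHomogeneous.sum _ _ _ fun j _ => ?_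
        have h5 := (isHomogeneous_C (Fin 3) (A i j)).mul (hvh j)
        rw [zero_add] at h5
        exact h5
      have h2 : homogeneousComponent e (evl (A i) v) = evl (A i) v := by
        rw [homogeneousComponent_of_mem (n := e) (m := e) h1, if_pos rfl]
      rw [hr i, mul_comm (lin (A i)), Pool.Agent.H64.TF.comp_mul _ _ (hlin i)] at h2
      rw [hr i, mul_comm (lin (A i))]
      exact h2.symm
    have hhh : ∀ i, (h i).IsHomogeneous (e - 1) := by
      intro i
      simp only [h]
      split_ifs
      · exact homogeneousComponent_isHomogeneous _ _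
      · exact isHomogeneous_zero _ _ _
    set g : MvPolynomial (Fin 3) K := ∑ i, h i with hg
    have hD := dv_prod A v h hh Finset.univ
    rw [dv_apply, ← hg] at hD
    refine ⟨fun j => v j - C ((n : K)⁻¹) * (g * X j), ?_, ?_, ?_⟩
    · show ∑ j, (v j - C ((n : K)⁻¹) * (g * X j)) * pderiv j (∏ i, lin (A i)) = 0
      have h1 : ∑ j, (v j - C ((n : K)⁻¹) * (g * X j)) * pderiv j (∏ i, lin (A i)) =
          ∑ j, v j * pderiv j (∏ i, lin (A i)) -
            C ((n : K)⁻¹) * g * ∑ j, X j * pderiv j (∏ i, lin (A i)) := by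
        rw [Finset.mul_sum, ← Finset.sum_sub_distrib]
        exact Finset.sum_congr rfl fun j _ => by ring
      rw [h1, hD, euler A]
      have h2 : (C ((n : K)⁻¹) * C (n : K) : MvPolynomial (Fin 3) K) = 1 := by
        rw [← C_mul, inv_mul_cancel₀ hn0, C_1]
      linear_combination (-(g * ∏ i, lin (A i))) * h2
    · intro j
      show (v j - C ((n : K)⁻¹) * (g * X j)).IsHomogeneous e
      refine (hvh j).sub ?_
      by_cases he : 1 ≤ e
      · have h1 : g.IsHomogeneous (e - 1) := IsHomogeneous.sum _ _ _ fun i _ => hhh i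
        have h2 := (isHomogeneous_C (Fin 3) ((n : K)⁻¹)).mul (h1.mul (isHomogeneous_X K j))
        rw [zero_add, show e - 1 + 1 = e by omega] at h2
        exact h2
      · have h1 : g = 0 := by
          rw [hg]
          exact Finset.sum_eq_zero fun i _ => if_neg he
        rw [h1, zero_mul, mul_zero]
        exact isHomogeneous_zero _ _ _
    · intro h0
      apply hij
      have h1 : ∀ j, v j = C ((n : K)⁻¹) * (g * X j) := fun j => sub_eq_zero.1 (congrFun h0 j)
      rw [h1 i₀, h1 j₀]
      ring

end Pool.Agent.H56.GS
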